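import Pool.Agent.H.MP_20afc1_co.Numeric

/-!
# The expected proportion of fixed vertices of a random labelled tree

`expFixed n`, the expected proportion of vertices of a uniform random labelled tree on `n`
vertices which are fixed by all automorphisms, converges to `1 - ∑' k, term k`, where
`term k = e^(-k) / k! * ∑ fix(H, r) (1 - exp (-e^(-k) / |Aut(H, r)|))`, the sum being over all
rooted labelled trees `(H, r)` on `k` vertices.
-/

namespace Pool.Agent.Results.MP_20afc1_co.FixedVertexLimit

open Pool.Agent.H.MP_20afc1_co Filter Topology

/-- The expected proportion of fixed vertices converges, the limit is given by an explicit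
convergent series, and it lies between `0.834` and `0.853`. -/
theorem result :
    Summable term ∧
    Tendsto expFixed atTop (𝓝 (1 - ∑' k, term k)) ∧
    0.834 < 1 - ∑' k, term k ∧ 1 - ∑' k, term k < 0.853 := by
  have h := sum_bounds
  refine ⟨term_summable, expFixed_tendsto, ?_, ?_⟩
  · linarith [h.2]
  · linarith [h.1]

end Pool.Agent.Results.MP_20afc1_co.FixedVertexLimit
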